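import Mathlib

set_option autoImplicit false

namespace Pool.Agent.Results.MP_63137b_co.LocalUniversal

open MvPolynomial

/-- An arrangement of hyperplanes in `V`: finitely many nonzero linear forms with pairwise distinct
kernels. -/
structure Arrangement (K V : Type) [Field K] [AddCommGroup V] [Module K V] where
  ι : Type
  [fin : Fintype ι]
  form : ι → Module.Dual K V
  form_ne_zero : ∀ i, form i ≠ 0
  ker_injective : Function.Injective fun i => LinearMap.ker (form i)

section Definitions

variable {K V : Type} [Field K] [AddCommGroup V] [Module K V]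

/-- The linear form `α` as a polynomial in the coordinates of the basis `b`. -/
noncomputable def formPoly {r : ℕ} (b : Module.Basis (Fin r) K V) (α : Module.Dual K V) :
    MvPolynomial (Fin r) K :=
  ∑ i, C (α (b i)) * X i

/-- The polynomial `θ(α)` for the derivation `θ = ∑ θ i ∂_i` and the linear form `α`. -/
noncomputable def applyForm {r : ℕ} (b : Module.Basis (Fin r) K V)
    (θ : Fin r → MvPolynomial (Fin r) K) (α : Module.Dual K V) : MvPolynomial (Fin r) K :=
  ∑ i, C (α (b i)) * θ i

/-- Membership in the module `D(𝒜, m)` of logarithmic derivations of the multiarrangement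
`(𝒜, m)`, in the coordinates of the basis `b`. -/
def MemD (𝒜 : Arrangement K V) (m : 𝒜.ι → ℕ) {r : ℕ} (b : Module.Basis (Fin r) K V)
    (θ : Fin r → MvPolynomial (Fin r) K) : Prop :=
  ∀ i, formPoly b (𝒜.form i) ^ m i ∣ applyForm b θ (𝒜.form i)

/-- The derivation `∇_φ θ`. -/
noncomputable def nabla {r : ℕ} (φ θ : Fin r → MvPolynomial (Fin r) K) :
    Fin r → MvPolynomial (Fin r) K :=
  fun i => ∑ j, φ j * pderiv j (θ i)

/-- `θ` is homogeneous: all its coefficients are homogeneous polynomials of the same degree. -/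
def IsHomog {r : ℕ} (θ : Fin r → MvPolynomial (Fin r) K) : Prop :=
  ∃ n, ∀ i, (θ i).IsHomogeneous n

/-- A homogeneous `θ ∈ D(𝒜, m + 1)` is `m`-universal: `φ ↦ ∇_φ θ` is a bijection (hence an
isomorphism, being linear) from all derivations onto `D(𝒜, m)`. -/
def IsUniversal (𝒜 : Arrangement K V) (m : 𝒜.ι → ℕ) {r : ℕ} (b : Module.Basis (Fin r) K V)
    (θ : Fin r → MvPolynomial (Fin r) K) : Prop :=
  IsHomog θ ∧ MemD 𝒜 (fun i => m i + 1) b θ ∧
    (∀ φ, MemD 𝒜 m b (nabla φ θ)) ∧ ∀ η, MemD 𝒜 m b η → ∃! φ, nabla φ θ = η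

/-- The multiarrangement `(𝒜, μ)` (all `μ i ≥ 1`) admits a universal derivation: there is a
homogeneous `θ ∈ D(𝒜, μ)` that is `(μ - 1)`-universal. -/
def HasUniversal (𝒜 : Arrangement K V) (μ : 𝒜.ι → ℕ) {r : ℕ} (b : Module.Basis (Fin r) K V) :
    Prop :=
  ∃ θ, MemD 𝒜 μ b θ ∧ IsUniversal 𝒜 (fun i => μ i - 1) b θ

/-- `X` is an intersection of hyperplanes of the arrangement. -/
def IsFlat (𝒜 : Arrangement K V) (X : Submodule K V) : Prop :=
  ∃ I : Set 𝒜.ι, X = ⨅ i ∈ I, LinearMap.ker (𝒜.form i)

open Classical in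
/-- The localization of `𝒜` at `X`: the hyperplanes containing `X`, as an arrangement in
`V ⧸ X`. -/
noncomputable def localization (𝒜 : Arrangement K V) (X : Submodule K V) :
    Arrangement K (V ⧸ X) where
  ι := {i : 𝒜.ι // X ≤ LinearMap.ker (𝒜.form i)}
  fin := haveI := 𝒜.fin; inferInstance
  form i := X.liftQ (𝒜.form i.1) i.2
  form_ne_zero i h := by
    apply 𝒜.form_ne_zero i.1
    rw [← X.liftQ_mkQ (𝒜.form i.1) i.2, h, LinearMap.zero_comp]
  ker_injective i j h := by
    apply Subtype.ext
    apply 𝒜.ker_injective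
    ext x
    have h1 : X.mkQ x ∈ LinearMap.ker (X.liftQ (𝒜.form i.1) i.2) ↔
        X.mkQ x ∈ LinearMap.ker (X.liftQ (𝒜.form j.1) j.2) := by
      have h' : LinearMap.ker (X.liftQ (𝒜.form i.1) i.2) =
        LinearMap.ker (X.liftQ (𝒜.form j.1) j.2) := h
      rw [h']
    simpa [LinearMap.mem_ker] using h1

end Definitions

/-! ### No universal derivation for multiplicities `(2, 1)` -/

section Negative

variable {K V : Type} [Field K] [AddCommGroup V] [Module K V] {r : ℕ}
  (b : Module.Basis (Fin r) K V)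

theorem nabla_apply (α : Module.Dual K V) (φ θ : Fin r → MvPolynomial (Fin r) K) :
    applyForm b (nabla φ θ) α = ∑ j, φ j * pderiv j (applyForm b θ α) := by
  unfold applyForm nabla
  simp only [map_sum, Derivation.leibniz, pderiv_C, smul_eq_mul, mul_zero, add_zero,
    Finset.mul_sum]
  rw [Finset.sum_comm]
  exact Finset.sum_congr rfl fun i _ => Finset.sum_congr rfl fun j _ => by ring

theorem applyForm_const (α : Module.Dual K V) (c : V) (g : MvPolynomial (Fin r) K) :
    applyForm b (fun i => g * C (b.repr c i)) α = g * C (α c) := by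
  unfold applyForm
  have h : α c = ∑ i, α (b i) * b.repr c i := by
    conv_lhs => rw [← b.sum_repr c]
    rw [map_sum]
    exact Finset.sum_congr rfl fun i _ => by rw [map_smul, smul_eq_mul, mul_comm]
  rw [h, map_sum, Finset.mul_sum]
  exact Finset.sum_congr rfl fun i _ => by rw [C_mul]; ring

theorem formPoly_homog (α : Module.Dual K V) : (formPoly b α).IsHomogeneous 1 := by
  unfold formPoly
  refine IsHomogeneous.sum _ _ _ fun i _ => ?_
  have := (isHomogeneous_C (Fin r) (α (b i))).mul (isHomogeneous_X K i)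
  simpa using this

theorem formPoly_ne_zero {α : Module.Dual K V} (h : α ≠ 0) : formPoly b α ≠ 0 := by
  intro h0
  apply h
  refine b.ext fun i => ?_
  have h1 := congrArg (coeff (Finsupp.single i 1)) h0
  unfold formPoly at h1
  rw [coeff_sum, coeff_zero] at h1
  rw [Finset.sum_eq_single i] at h1
  · simpa [coeff_C_mul, coeff_X] using h1
  · intro j _ hj
    rw [coeff_C_mul, coeff_X, if_neg, mul_zero]
    intro h2
    exact hj (Finsupp.single_left_injective one_ne_zero h2)
  · intro h2
    exact absurd (Finset.mem_univ i) h2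

/-- if some hyperplane has multiplicity two, and a vector `c ≠ 0` lies in all hyperplanes with
multiplicity at least two, there is no universal derivation -/
theorem no_universal (𝒜 : Arrangement K V) (μ : 𝒜.ι → ℕ) (i₀ : 𝒜.ι) (h2 : μ i₀ = 2)
    (c : V) (hc : c ≠ 0) (hcμ : ∀ i, μ i ≠ 1 → 𝒜.form i c = 0)
    (c' : V) (hc' : 𝒜.form i₀ c' ≠ 0) (hcμ' : ∀ i, i ≠ i₀ → μ i = 1) : ¬ HasUniversal 𝒜 μ b := by
  rintro ⟨θ, hθ, ⟨n, hn⟩, -, -, hsurj⟩
  -- the constant derivation `c`
  have hD : MemD 𝒜 (fun i => μ i - 1) b (fun i => 1 * C (b.repr c i)) := by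
    intro i
    rw [applyForm_const]
    by_cases hi : μ i = 1
    · simp [hi]
    · rw [hcμ i hi, C_0, mul_zero]
      exact dvd_zero _
  obtain ⟨φ, hφ, -⟩ := hsurj _ hD
  have hn1 : n = 1 := by
    have hne : ∃ i, b.repr c i ≠ 0 := by
      by_contra hcon
      push Not at hcon
      apply hc
      rw [← b.sum_repr c]
      simp [hcon]
    obtain ⟨i, hi⟩ := hne
    have h1 := congrArg constantCoeff (congrFun hφ i)
    simp only [nabla, map_sum, map_mul, constantCoeff_C, one_mul] at h1
    have hex : ∃ j, constantCoeff (pderiv j (θ i)) ≠ 0 := by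
      by_contra hcon
      push Not at hcon
      apply hi
      rw [← h1]
      simp [hcon]
    obtain ⟨j, hj⟩ := hex
    have hj' : coeff (Finsupp.single j 1) (θ i) ≠ 0 := by
      intro h0
      apply hj
      rw [constantCoeff_eq, coeff_pderiv]
      simp [h0]
    have := hn i hj'
    rw [Finsupp.weight_single] at this
    simpa using this.symm
  subst hn1
  -- `θ(u)` is homogeneous of degree one and divisible by `u²`
  have hu : applyForm b θ (𝒜.form i₀) = 0 := by
    by_contra hne
    obtain ⟨g, hg⟩ := hθ i₀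
    have hdeg : (applyForm b θ (𝒜.form i₀)).IsHomogeneous 1 := by
      unfold applyForm
      refine IsHomogeneous.sum _ _ _ fun i _ => ?_
      have := (isHomogeneous_C (Fin r) (𝒜.form i₀ (b i))).mul (hn i)
      simpa using this
    rw [h2] at hg
    have h3 : (formPoly b (𝒜.form i₀) ^ 2).IsHomogeneous 2 := by
      have := (formPoly_homog b (𝒜.form i₀)).pow 2
      simpa using this
    have hne1 : formPoly b (𝒜.form i₀) ^ 2 ≠ 0 := pow_ne_zero _ (formPoly_ne_zero b (𝒜.form_ne_zero i₀))
    have hne2 : g ≠ 0 := by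
      rintro rfl
      rw [mul_zero] at hg
      exact hne hg
    have h4 := totalDegree_mul_of_isDomain hne1 hne2
    rw [← hg, hdeg.totalDegree hne, h3.totalDegree hne1] at h4
    omega
  -- the derivation `u c'`
  have hD' : MemD 𝒜 (fun i => μ i - 1) b
      (fun i => formPoly b (𝒜.form i₀) * C (b.repr c' i)) := by
    intro i
    rw [applyForm_const]
    show formPoly b (𝒜.form i) ^ (μ i - 1) ∣ _
    by_cases hi : i = i₀
    · subst hi
      rw [h2]
      simp
    · rw [hcμ' i hi]
      simp
  obtain ⟨φ', hφ', -⟩ := hsurj _ hD'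
  have h5 := applyForm_const b (𝒜.form i₀) c' (formPoly b (𝒜.form i₀))
  rw [← hφ', nabla_apply, hu] at h5
  simp only [map_zero, mul_zero, Finset.sum_const_zero] at h5
  rcases mul_eq_zero.1 h5.symm with h6 | h6
  · exact formPoly_ne_zero b (𝒜.form_ne_zero i₀) h6
  · rw [C_eq_zero] at h6
    exact hc' h6

end Negative

/-! ### The example -/

/-- the coefficients of the six linear forms `x, y, z, x - y, y - z, z - x` -/
def M : Fin 6 → Fin 3 → ℤ :=
  ![![1, 0, 0], ![0, 1, 0], ![0, 0, 1], ![1, -1, 0], ![0, 1, -1], ![-1, 0, 1]]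

section Example

variable (K : Type) [Field K]

/-- the linear forms -/
def frm (i : Fin 6) : Module.Dual K (Fin 3 → K) := ∑ k, (M i k : K) • LinearMap.proj k

theorem frm_apply (i : Fin 6) (x : Fin 3 → K) : frm K i x = ∑ k, (M i k : K) * x k := by
  simp [frm]

variable [CharZero K]

/-- test vectors -/
theorem test : ∀ i j : Fin 6, i ≠ j → ∃ w : Fin 3 → Fin 3,
    (∑ k, M i k * (((w k : ℕ) : ℤ) - 1) = 0 ∧ ∑ k, M j k * (((w k : ℕ) : ℤ) - 1) ≠ 0) := by
  decide +kernel

/-- the arrangement of type `A₃` -/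
def A3 : Arrangement K (Fin 3 → K) where
  ι := Fin 6
  form := frm K
  form_ne_zero i h := by
    obtain ⟨j, hj⟩ : ∃ j : Fin 6, j ≠ i := exists_ne i
    obtain ⟨w, -, hw⟩ := test j i hj
    apply hw
    have h1 := congrArg (fun f => f fun k => (((w k : ℕ) : K) - 1)) h
    simp only [frm_apply, LinearMap.zero_apply] at h1
    exact_mod_cast h1
  ker_injective i j h := by
    by_contra hne
    obtain ⟨w, hw1, hw2⟩ := test i j hne
    have h1 : (fun k => (((w k : ℕ) : K) - 1)) ∈ LinearMap.ker (frm K i) := by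
      rw [LinearMap.mem_ker, frm_apply]
      exact_mod_cast congrArg (fun z : ℤ => (z : K)) hw1
    have h' : LinearMap.ker (frm K i) = LinearMap.ker (frm K j) := h
    rw [h', LinearMap.mem_ker, frm_apply] at h1
    apply hw2
    exact_mod_cast h1

/-- the multiplicity: two on the coordinate planes, one on the others -/
def mu : Fin 6 → ℕ := ![2, 2, 2, 1, 1, 1]

/-- the derivation `x² ∂_x + y² ∂_y + z² ∂_z` -/
noncomputable def theta : Fin 3 → MvPolynomial (Fin 3) K := fun i => X i ^ 2

omit [CharZero K] in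
theorem basisFun_form (i : Fin 6) (k : Fin 3) :
    frm K i (Pi.basisFun K (Fin 3) k) = (M i k : K) := by
  rw [frm_apply]
  simp [Pi.basisFun_apply, Pi.single_apply]

theorem theta_mem : MemD (A3 K) mu (Pi.basisFun K (Fin 3)) (theta K) := by
  intro i
  change Fin 6 at i
  show formPoly (Pi.basisFun K (Fin 3)) (frm K i) ^ mu i ∣
    applyForm (Pi.basisFun K (Fin 3)) (theta K) (frm K i)
  unfold formPoly applyForm theta
  simp only [basisFun_form, Fin.sum_univ_three]
  fin_cases i
  · simp [M, mu]
  · simp [M, mu]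
  · simp [M, mu]
  · refine ⟨X 0 + X 1, ?_⟩
    simp [M, mu]; ring
  · refine ⟨X 1 + X 2, ?_⟩
    simp [M, mu]; ring
  · refine ⟨X 0 + X 2, ?_⟩
    simp [M, mu]; ring

omit [CharZero K] in
theorem nabla_theta (φ : Fin 3 → MvPolynomial (Fin 3) K) (i : Fin 3) :
    nabla φ (theta K) i = C 2 * (φ i * X i) := by
  unfold nabla theta
  rw [Finset.sum_eq_single i]
  · have h2 : (C 2 : MvPolynomial (Fin 3) K) = 2 := map_ofNat C 2
    rw [h2]
    simp [pderiv_X]
    ring
  · intro j _ hj
    simp [pderiv_X, hj.symm]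
  · intro h
    exact absurd (Finset.mem_univ i) h

theorem memD_iff (η : Fin 3 → MvPolynomial (Fin 3) K) :
    MemD (A3 K) (fun i => mu i - 1) (Pi.basisFun K (Fin 3)) η ↔ ∀ k, X k ∣ η k := by
  have e : ∀ i : Fin 6, (formPoly (Pi.basisFun K (Fin 3)) (frm K i) ^ (mu i - 1) ∣
      applyForm (Pi.basisFun K (Fin 3)) η (frm K i)) ↔
      (∑ k, C ((M i k : K)) * X k) ^ (mu i - 1) ∣ ∑ k, C ((M i k : K)) * η k := by
    intro i
    unfold formPoly applyForm
    simp only [basisFun_form]
  constructor
  · intro h k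
    fin_cases k
    · have := (e 0).1 (h (0 : Fin 6))
      simpa [M, mu, Fin.sum_univ_three] using this
    · have := (e 1).1 (h (1 : Fin 6))
      simpa [M, mu, Fin.sum_univ_three] using this
    · have := (e 2).1 (h (2 : Fin 6))
      simpa [M, mu, Fin.sum_univ_three] using this
  · intro h i
    refine (e i).2 ?_
    change Fin 6 at i
    fin_cases i
    · simpa [M, mu, Fin.sum_univ_three] using h 0
    · simpa [M, mu, Fin.sum_univ_three] using h 1
    · simpa [M, mu, Fin.sum_univ_three] using h 2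
    · simp [mu]
    · simp [mu]
    · simp [mu]

theorem universal_A3 : HasUniversal (A3 K) mu (Pi.basisFun K (Fin 3)) := by
  refine ⟨theta K, theta_mem K, ⟨2, fun i => isHomogeneous_X_pow i 2⟩, ?_, ?_, ?_⟩
  · intro i
    have h1 := theta_mem K i
    have h2 : mu i - 1 + 1 = mu i := by
      change Fin 6 at i
      fin_cases i <;> rfl
    show formPoly _ _ ^ (mu i - 1 + 1) ∣ _
    rw [h2]
    exact h1
  · intro φ
    rw [memD_iff]
    intro k
    rw [nabla_theta]
    exact ⟨C 2 * φ k, by ring⟩
  · intro η hη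
    rw [memD_iff] at hη
    choose g hg using hη
    have h2 : (2 : K) ≠ 0 := two_ne_zero
    have hC : (C (2 : K) : MvPolynomial (Fin 3) K) * C ((2 : K)⁻¹) = 1 := by
      rw [← C_mul, mul_inv_cancel₀ h2, C_1]
    refine ⟨fun i => C ((2 : K)⁻¹) * g i, ?_, ?_⟩
    · funext i
      show nabla _ (theta K) i = η i
      rw [nabla_theta, hg i]
      linear_combination (g i * X i) * hC
    · intro φ hφ
      funext i
      have h3 := congrFun hφ i
      rw [nabla_theta, hg i] at h3
      have h4 : X i * (C 2 * φ i - g i) = 0 := by linear_combination h3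
      have h5 : C 2 * φ i - g i = 0 := (mul_eq_zero.1 h4).resolve_left (X_ne_zero i)
      linear_combination C ((2 : K)⁻¹) * h5 - φ i * hC

/-- the flat `x = 0`, `y = z` -/
def Y : Submodule K (Fin 3 → K) := LinearMap.ker (frm K 0) ⊓ LinearMap.ker (frm K 4)

end Example

/-- For every field `K` of characteristic zero there are an arrangement in `K³` with a
multiplicity `μ ≥ 1` that admits a universal derivation, and a flat `X`, such that the localization
at `X` admits no universal derivation (in any coordinates of `K³ ⧸ X`). -/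
theorem result (K : Type) [Field K] [CharZero K] :
    ∃ (𝒜 : Arrangement K (Fin 3 → K)) (μ : 𝒜.ι → ℕ), (∀ i, 1 ≤ μ i) ∧
      HasUniversal 𝒜 μ (Pi.basisFun K (Fin 3)) ∧
      ∃ X : Submodule K (Fin 3 → K), IsFlat 𝒜 X ∧
        ∀ (r : ℕ) (b : Module.Basis (Fin r) K ((Fin 3 → K) ⧸ X)),
          ¬ HasUniversal (localization 𝒜 X) (fun i => μ i.1) b := by
  refine ⟨A3 K, mu, ?_, universal_A3 K, Y K,
    ⟨{(0 : Fin 6), (4 : Fin 6)}, ?_⟩, ?_⟩
  · intro i
    change Fin 6 at i
    fin_cases i <;> decide
  · exact (iInf_pair (f := fun i : Fin 6 => LinearMap.ker (frm K i)) (a := 0) (b := 4)).symm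
  · intro r b
    have hmem : ∀ x : Fin 3 → K, x ∈ Y K ↔ x 0 = 0 ∧ x 1 = x 2 := by
      intro x
      rw [Y, Submodule.mem_inf, LinearMap.mem_ker, LinearMap.mem_ker, frm_apply, frm_apply]
      simp [M, Fin.sum_univ_three, ← sub_eq_add_neg, sub_eq_zero]
    have hle : ∀ i : Fin 6, Y K ≤ LinearMap.ker (frm K i) → i = 0 ∨ i = 4 := by
      intro i hi
      have h1 : (![0, 1, 1] : Fin 3 → K) ∈ Y K := by
        rw [hmem]; simp
      have h2 := hi h1
      rw [LinearMap.mem_ker, frm_apply] at h2
      fin_cases i <;> simp [M, Fin.sum_univ_three] at h2 ⊢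
    let i₀ : (localization (A3 K) (Y K)).ι := ⟨(0 : Fin 6), inf_le_left⟩
    refine no_universal b (localization (A3 K) (Y K)) (fun i => mu i.1) i₀ rfl ((Y K).mkQ ![0, 1, 0])
      ?_ ?_ ((Y K).mkQ ![1, 0, 0]) ?_ ?_
    · intro h
      have h1 : (![0, 1, 0] : Fin 3 → K) ∈ Y K := by
        rwa [← Submodule.ker_mkQ (Y K), LinearMap.mem_ker]
      rw [hmem] at h1
      simp at h1
    · rintro ⟨i, hi⟩ h
      change Fin 6 at i
      show (Y K).liftQ (frm K i) hi ((Y K).mkQ ![0, 1, 0]) = 0
      rw [Submodule.mkQ_apply, Submodule.liftQ_apply]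
      rcases hle i hi with rfl | rfl
      · rw [frm_apply]; simp [M, Fin.sum_univ_three]
      · exact absurd rfl h
    · show (Y K).liftQ (frm K 0) _ ((Y K).mkQ ![1, 0, 0]) ≠ 0
      rw [Submodule.mkQ_apply, Submodule.liftQ_apply, frm_apply]
      simp [M, Fin.sum_univ_three]
    · rintro ⟨i, hi⟩ h
      change Fin 6 at i
      rcases hle i hi with rfl | rfl
      · exact absurd rfl h
      · rfl

end Pool.Agent.Results.MP_63137b_co.LocalUniversal
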